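import Pool.Agent.U180.NG.Stm

set_option autoImplicit false

open MeasureTheory ProbabilityTheory Filter Topology
open Pool.Agent.H469R2.NK (e)

namespace Pool.Agent.U96.NG

open Pool.Agent.U180.NG

namespace VARYAux

lemma b2_bounds (x : ℝ) : -(1 / 12) ≤ b2 x ∧ b2 x ≤ 1 / 6 := by
  unfold b2
  have h0 := Int.fract_nonneg x
  have h1 := (Int.fract_lt_one x).le
  constructor
  · nlinarith [sq_nonneg (Int.fract x - 1 / 2)]
  · nlinarith

lemma mem_rows {R y : ℝ} {m : ℤ} (h : m ∈ rows R y) : -R - y ≤ m ∧ (m : ℝ) ≤ R - y := by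
  unfold rows at h
  rw [Finset.mem_Icc] at h
  exact ⟨Int.ceil_le.1 h.1, Int.le_floor.1 h.2⟩

lemma abs_le_of_mem {R y : ℝ} {m : ℤ} (h : m ∈ rows R y) : |(m : ℝ) + y| ≤ R := by
  have := mem_rows h
  rw [abs_le]
  constructor <;> linarith [this.1, this.2]

lemma card_rows (R y : ℝ) : 2 * R - 1 ≤ ((rows R y).card : ℝ) := by
  unfold rows
  rw [Int.card_Icc]
  have h1 := Int.sub_one_lt_floor (R - y)
  have h2 := Int.ceil_lt_add_one (-R - y)
  have h3 : ((⌊R - y⌋ + 1 - ⌈-R - y⌉ : ℤ) : ℝ) ≤ (((⌊R - y⌋ + 1 - ⌈-R - y⌉).toNat : ℕ) : ℝ) := by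
    have h4 := Int.self_le_toNat (⌊R - y⌋ + 1 - ⌈-R - y⌉)
    exact_mod_cast h4
  push_cast at h3
  linarith

lemma hl_nonneg (R y : ℝ) (m : ℤ) : 0 ≤ hl R y m := Real.sqrt_nonneg _

lemma hl_le {R y : ℝ} (hR : 0 ≤ R) (m : ℤ) : hl R y m ≤ R := by
  unfold hl
  rw [Real.sqrt_le_left hR]
  nlinarith [sq_nonneg ((m : ℝ) + y)]

lemma short_rows {R y : ℝ} (hR : 1 ≤ R) :
    ((rows R y).filter fun m => 2 * hl R y m < 1).card ≤ 2 := by
  have hsub : ((rows R y).filter fun m => 2 * hl R y m < 1) ⊆ {⌊R - y⌋, ⌈-R - y⌉} := by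
    intro m hm
    rw [Finset.mem_filter] at hm
    obtain ⟨h1, h2⟩ := hm
    have h3 := mem_rows h1
    have h4 := abs_le_of_mem h1
    have h5 : R ^ 2 - ((m : ℝ) + y) ^ 2 < 1 / 4 := by
      by_contra hcon
      push Not at hcon
      have : (1 : ℝ) / 2 ≤ hl R y m := by
        unfold hl
        exact Real.le_sqrt_of_sq_le (by linarith)
      linarith
    rw [Finset.mem_insert, Finset.mem_singleton]
    have h6 : R - 1 / 4 < |(m : ℝ) + y| := by
      rw [← sq_abs ((m : ℝ) + y)] at h5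
      nlinarith [abs_nonneg ((m : ℝ) + y)]
    unfold rows at h1
    rw [Finset.mem_Icc] at h1
    rcases lt_abs.1 h6 with h7 | h7
    · left
      have h8 := Int.floor_le (R - y)
      have h9 : ((⌊R - y⌋ : ℤ) : ℝ) < ((m + 1 : ℤ) : ℝ) := by
        push_cast
        linarith
      have h10 : ⌊R - y⌋ < m + 1 := by exact_mod_cast h9
      omega
    · right
      have h8 := Int.le_ceil (-R - y)
      have h9 : ((m - 1 : ℤ) : ℝ) < ((⌈-R - y⌉ : ℤ) : ℝ) := by
        push_cast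
        linarith
      have h10 : m - 1 < ⌈-R - y⌉ := by exact_mod_cast h9
      omega
  exact (Finset.card_le_card hsub).trans Finset.card_le_two

/-- the lower bound of one row -/
noncomputable def tt (δ x : ℝ) : ℝ :=
  δ / 8 - (b2 x - 2 * b2 (x - δ / 2) + b2 (x - δ)) / (4 * δ)

lemma tt_le {δ x : ℝ} (h0 : 0 < δ) (h1 : δ ≤ 1) : tt δ x ≤ 2 / δ := by
  unfold tt
  have a1 := b2_bounds x
  have a2 := b2_bounds (x - δ / 2)
  have a3 := b2_bounds (x - δ)
  have h2 : δ / 8 ≤ 1 / δ := by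
    rw [div_le_div_iff₀ (by norm_num) h0]
    nlinarith
  have h3 : -(1 / δ) ≤ (b2 x - 2 * b2 (x - δ / 2) + b2 (x - δ)) / (4 * δ) := by
    have h4 : (-1 : ℝ) / (4 * δ) ≤ (b2 x - 2 * b2 (x - δ / 2) + b2 (x - δ)) / (4 * δ) := by
      apply div_le_div_of_nonneg_right _ (by positivity)
      linarith [a1.1, a2.2, a3.1]
    refine le_trans ?_ h4
    rw [neg_le_iff_add_nonneg, ← sub_nonneg]
    have : (-1 : ℝ) / (4 * δ) + 1 / δ - 0 = 3 / (4 * δ) := by field_simp; norm_num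
    rw [this]
    positivity
  have h5 : 2 / δ = 1 / δ + 1 / δ := by ring
  linarith

end VARYAux

open VARYAux

theorem t_VARY (h1 : S_B2) (h4 : S_PHI) (h5 : S_TENT) : S_VARY := by
  intro δ hδ hδ1
  obtain ⟨C, hC, hB⟩ := h1
  set a : ℝ := 8 / δ ^ 2 with ha
  have ha0 : 0 < a := by positivity
  refine ⟨δ / 8, (2 * a * C) ^ 2 + 8 * a + 2, by positivity, ?_⟩
  intro R y B hR hBR
  have hR2 : 2 + 8 * a ≤ R := by nlinarith [sq_nonneg (2 * a * C)]
  have hR1 : 1 ≤ R := by linarith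
  have hR0 : 0 ≤ R := by linarith
  have hsR : 2 * a * C ≤ Real.sqrt R := by
    apply Real.le_sqrt_of_sq_le
    nlinarith
  have hss : Real.sqrt R * Real.sqrt R = R := Real.mul_self_sqrt hR0
  -- the points
  set x : ℤ → ℝ := fun m => hl R y.2 m - y.1 with hx
  set zz : ℤ → ℤ × ℤ := fun m => (⌊x m⌋, m) with hzz
  have hinj : Function.Injective zz := by
    intro m m' h
    exact congrArg Prod.snd h
  have hnn : ∀ z : ℤ × ℤ, 0 ≤ phi δ R y z * (1 - phi δ R y z) := by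
    intro z
    obtain ⟨g1, g2, -, -⟩ := h4 δ R y z hδ hR0
    exact mul_nonneg g1 (by linarith)
  have hmem : ∀ m ∈ rows R y.2, zz m ∈ box B := by
    intro m hm
    have k1 := abs_le.1 (abs_le_of_mem hm)
    have k2 := hl_nonneg R y.2 m
    have k3 := hl_le (y := y.2) hR0 m
    have k4 := neg_abs_le y.1
    have k5 := le_abs_self y.1
    have k6 := neg_abs_le y.2
    have k7 := le_abs_self y.2
    have k8 := Int.floor_le (x m)
    have k9 := Int.lt_floor_add_one (x m)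
    have k10 : x m = hl R y.2 m - y.1 := rfl
    have k11 := abs_nonneg y.1
    have k12 := abs_nonneg y.2
    unfold box
    rw [Finset.mem_product, Finset.mem_Icc, Finset.mem_Icc]
    have c1 : ((-(B : ℤ) : ℤ) : ℝ) ≤ ((⌊x m⌋ : ℤ) : ℝ) := by
      push_cast
      linarith
    have c2 : ((⌊x m⌋ : ℤ) : ℝ) ≤ ((B : ℤ) : ℝ) := by
      push_cast
      linarith
    have c3 : ((-(B : ℤ) : ℤ) : ℝ) ≤ (m : ℝ) := by
      push_cast
      linarith
    have c4 : (m : ℝ) ≤ ((B : ℤ) : ℝ) := by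
      push_cast
      linarith
    exact ⟨⟨Int.cast_le.1 c1, Int.cast_le.1 c2⟩, ⟨Int.cast_le.1 c3, Int.cast_le.1 c4⟩⟩
  have hrow : ∀ m ∈ rows R y.2, tt δ (x m) - (if 2 * hl R y.2 m < 1 then 2 / δ else 0) ≤
      phi δ R y (zz m) * (1 - phi δ R y (zz m)) := by
    intro m hm
    by_cases hs : 2 * hl R y.2 m < 1
    · rw [if_pos hs]
      have := tt_le (x := x m) hδ hδ1
      have := hnn (zz m)
      linarith
    · rw [if_neg hs, sub_zero]
      push Not at hs
      obtain ⟨-, -, -, g⟩ := h4 δ R y (zz m) hδ hR0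
      have g1 := g (abs_le_of_mem hm)
      have e1 : hl R y.2 (zz m).2 - y.1 - ((zz m).1 : ℝ) = Int.fract (x m) := by
        show hl R y.2 m - y.1 - ((⌊x m⌋ : ℤ) : ℝ) = Int.fract (x m)
        exact rfl
      have e2 : clamp δ (-hl R y.2 (zz m).2 - y.1 - ((zz m).1 : ℝ)) = 0 := by
        have e3 : -hl R y.2 (zz m).2 - y.1 - ((zz m).1 : ℝ) = Int.fract (x m) - 2 * hl R y.2 m := by
          rw [← e1]
          show -hl R y.2 m - y.1 - ((zz m).1 : ℝ) = hl R y.2 m - y.1 - ((zz m).1 : ℝ) - 2 * hl R y.2 m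
          ring
        rw [e3]
        have e4 := Int.fract_lt_one (x m)
        unfold clamp
        rw [max_eq_left (by linarith), min_eq_right hδ.le]
      rw [e1, e2, sub_zero] at g1
      rw [g1]
      exact h5 δ (x m) hδ hδ1
  have hsum : ∑ m ∈ rows R y.2, phi δ R y (zz m) * (1 - phi δ R y (zz m)) ≤
      ∑ z ∈ box B, phi δ R y z * (1 - phi δ R y z) := by
    rw [← Finset.sum_image (f := fun z => phi δ R y z * (1 - phi δ R y z)) (g := zz)
      (fun a _ b _ h => hinj h)]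
    apply Finset.sum_le_sum_of_subset_of_nonneg
    · intro z hz
      rw [Finset.mem_image] at hz
      obtain ⟨m, hm, rfl⟩ := hz
      exact hmem m hm
    · intro z _ _
      exact hnn z
  have hsum2 := Finset.sum_le_sum hrow
  rw [Finset.sum_sub_distrib] at hsum2
  have hshort : ∑ m ∈ rows R y.2, (if 2 * hl R y.2 m < 1 then 2 / δ else 0) ≤ 4 / δ := by
    rw [← Finset.sum_filter, Finset.sum_const, nsmul_eq_mul]
    have k1 : (((rows R y.2).filter fun m => 2 * hl R y.2 m < 1).card : ℝ) ≤ 2 := by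
      exact_mod_cast short_rows (y := y.2) hR1
    calc _ ≤ 2 * (2 / δ) := mul_le_mul_of_nonneg_right k1 (by positivity)
      _ = 4 / δ := by ring
  have htt : ∑ m ∈ rows R y.2, tt δ (x m) = (rows R y.2).card * (δ / 8) -
      (∑ m ∈ rows R y.2, b2 (hl R y.2 m + -y.1) - 2 * ∑ m ∈ rows R y.2, b2 (hl R y.2 m + (-y.1 - δ / 2)) +
        ∑ m ∈ rows R y.2, b2 (hl R y.2 m + (-y.1 - δ))) / (4 * δ) := by
    unfold tt
    rw [Finset.sum_sub_distrib, Finset.sum_const, nsmul_eq_mul, ← Finset.sum_div,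
      Finset.sum_add_distrib, Finset.sum_sub_distrib, ← Finset.mul_sum]
    congr 1
    congr 1
    have e1 : ∀ m : ℤ, x m = hl R y.2 m + -y.1 := fun m => by
      show hl R y.2 m - y.1 = hl R y.2 m + -y.1
      ring
    have e2 : ∀ m : ℤ, x m - δ / 2 = hl R y.2 m + (-y.1 - δ / 2) := fun m => by
      rw [e1]; ring
    have e3 : ∀ m : ℤ, x m - δ = hl R y.2 m + (-y.1 - δ) := fun m => by
      rw [e1]; ring
    simp only [e1]
    have e2' : ∀ m : ℤ, hl R y.2 m + -y.1 - δ / 2 = hl R y.2 m + (-y.1 - δ / 2) := fun m => by ring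
    have e3' : ∀ m : ℤ, hl R y.2 m + -y.1 - δ = hl R y.2 m + (-y.1 - δ) := fun m => by ring
    simp only [e2', e3']
  have b1 := abs_le.1 (hB R y.2 (-y.1) hR1)
  have b3 := abs_le.1 (hB R y.2 (-y.1 - δ / 2) hR1)
  have b4 := abs_le.1 (hB R y.2 (-y.1 - δ) hR1)
  have hfrac : (∑ m ∈ rows R y.2, b2 (hl R y.2 m + -y.1) - 2 * ∑ m ∈ rows R y.2, b2 (hl R y.2 m + (-y.1 - δ / 2)) +
        ∑ m ∈ rows R y.2, b2 (hl R y.2 m + (-y.1 - δ))) / (4 * δ) ≤ C * Real.sqrt R / δ := by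
    have k1 : C * Real.sqrt R / δ = (4 * (C * Real.sqrt R)) / (4 * δ) := by
      field_simp
    rw [k1]
    apply div_le_div_of_nonneg_right _ (by positivity)
    linarith [b1.2, b3.1, b4.2]
  have hcard : (2 * R - 1) * (δ / 8) ≤ (rows R y.2).card * (δ / 8) :=
    mul_le_mul_of_nonneg_right (card_rows R y.2) (by positivity)
  -- conclusion
  have hfin : δ / 8 * R + C * Real.sqrt R / δ + 4 / δ ≤ (2 * R - 1) * (δ / 8) := by
    have k1 : C * Real.sqrt R / δ = (δ / 8) * (a * C * Real.sqrt R) := by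
      rw [ha]; field_simp
    have k2 : 4 / δ = (δ / 8) * (4 * a) := by
      rw [ha]; field_simp
    have k3 : a * C * Real.sqrt R ≤ R / 2 := by
      have := mul_le_mul_of_nonneg_right hsR (Real.sqrt_nonneg R)
      nlinarith
    rw [k1, k2]
    have k4 : R + a * C * Real.sqrt R + 4 * a ≤ 2 * R - 1 := by linarith
    nlinarith
  linarith

end Pool.Agent.U96.NG
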